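import Pool.Agent.Helper22.TL.Spec

/-!
# TL, part GLOB: faces of different tiles
-/

set_option autoImplicit false

namespace TL.H52

open Set

variable {d : ℕ}

lemma face_ext {T F : Set (E d)} (h : IsFace T F) : IsExtreme ℝ T F := h.1

lemma face_convex {T F : Set (E d)} (h : IsFace T F) : Convex ℝ F := h.2

lemma face_sub {T F : Set (E d)} (h : IsFace T F) : F ⊆ T := h.1.subset

lemma poly_convex {T : Set (E d)} (h : IsPoly T) : Convex ℝ T := by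
  obtain ⟨⟨s, rfl⟩, _⟩ := h
  exact convex_convexHull ℝ _

lemma ri_sub {F : Set (E d)} : ri F ⊆ F := fun _ h => h.1

lemma glob1 (h1 : S_RI1) {𝒯 : Set (Set (E d))} (hT : LFC 𝒯) (F G : Set (E d)) (x : E d)
    (hF : Fc 𝒯 F) (hG : Fc 𝒯 G) (hx : x ∈ ri F) (hxG : x ∈ G) : F ⊆ G ∧ IsFace G F := by
  obtain ⟨_, T, hT1, hFT⟩ := hF
  obtain ⟨_, T', hT2, hGT⟩ := hG
  obtain ⟨R1, _, _⟩ := h1 d
  have hTT := hT.face T hT1 T' hT2
  have hTT' := hT.face T' hT2 T hT1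
  rw [inter_comm] at hTT'
  have a1 : F ⊆ T ∩ T' := R1 T (T ∩ T') F x hTT.1 (face_sub hFT) hx ⟨(face_sub hFT) hx.1, (face_sub hGT) hxG⟩
  have a2 : IsExtreme ℝ (T ∩ T') F := hFT.1.mono inter_subset_left a1
  have a3 : IsExtreme ℝ T' F := hTT'.1.trans a2
  have a4 : F ⊆ G := R1 T' G F x hGT.1 a3.subset hx hxG
  exact ⟨a4, a3.mono (face_sub hGT) a4, hFT.2⟩

theorem _root_.TL.GLOB_thm (h1 : S_RI1) (h2 : S_RI2) : S_GLOB := by
  intro d 𝒯 hT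
  obtain ⟨R1, _, R3⟩ := h1 d
  obtain ⟨P1, P2⟩ := h2 d
  have g4 : ∀ F, Fc 𝒯 F → IsCompact F ∧ Convex ℝ F ∧ (ri F).Nonempty := by
    rintro F ⟨hne, T, hT1, hFT⟩
    obtain ⟨s, hs, hFs, hc⟩ := P1 T F (hT.poly T hT1) hFT hne
    refine ⟨?_, hFT.2, ⟨_, hc⟩⟩
    rw [hFs]
    exact (Finset.finite_toSet s).isCompact_convexHull (𝕜 := ℝ)
  have g7 : ∀ K : Set (E d), IsCompact K → {F | Fc 𝒯 F ∧ (F ∩ K).Nonempty}.Finite := by
    intro K hK
    apply Set.Finite.subset ((hT.locfin K hK).biUnion (t := fun T => {F | IsFace T F}) ?_)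
    · rintro F ⟨⟨_, T, hT1, hFT⟩, hFK⟩
      rw [mem_iUnion₂]
      exact ⟨T, ⟨hT1, hFK.mono (inter_subset_inter_left K (face_sub hFT))⟩, hFT⟩
    · rintro T ⟨hT1, _⟩
      exact P2 T (hT.poly T hT1)
  refine ⟨fun F G x => glob1 h1 hT F G x, ?_, ?_, g4, ?_, ?_, g7⟩
  · intro F G hF hG hFG
    obtain ⟨x, hx⟩ := (g4 F hF).2.2
    exact (glob1 h1 hT F G x hF hG hx (hFG hx.1)).2
  · rintro F G ⟨_, T, hT1, hFT⟩ ⟨_, T', hT2, hGT⟩ hne
    refine ⟨hne, T, hT1, ?_, hFT.2.inter hGT.2⟩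
    have hTT := hT.face T hT1 T' hT2
    have hTT' := hT.face T' hT2 T hT1
    have a1 : IsExtreme ℝ T' (G ∩ (T' ∩ T)) := hGT.1.inter hTT'.1
    have a2 : IsExtreme ℝ (T ∩ T') (G ∩ (T' ∩ T)) :=
      a1.mono inter_subset_right (by rw [inter_comm T' T]; exact inter_subset_right)
    have a3 : IsExtreme ℝ T (G ∩ (T' ∩ T)) := hTT.1.trans a2
    have a4 := hFT.1.inter a3
    have e : F ∩ (G ∩ (T' ∩ T)) = F ∩ G := by
      ext x
      constructor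
      · rintro ⟨h1, h2, _⟩
        exact ⟨h1, h2⟩
      · rintro ⟨h1, h2⟩
        exact ⟨h1, h2, (face_sub hGT) h2, (face_sub hFT) h1⟩
    rw [e] at a4
    exact a4
  · intro x
    obtain ⟨T, hT1, hx⟩ := hT.cover x
    obtain ⟨F, hF, hxF⟩ := R3 T x (poly_convex (hT.poly T hT1)) hx
    exact ⟨F, ⟨⟨x, hxF.1⟩, T, hT1, hF⟩, hxF⟩
  · have e : {F | Fc 𝒯 F} ⊆ ⋃ n : ℕ, {F | Fc 𝒯 F ∧ (F ∩ Metric.closedBall 0 n).Nonempty} := by
      intro F hF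
      obtain ⟨x, hx⟩ := hF.1
      obtain ⟨n, hn⟩ := exists_nat_ge ‖x‖
      rw [mem_iUnion]
      exact ⟨n, hF, x, hx, by rw [Metric.mem_closedBall, dist_zero_right]; exact hn⟩
    apply Set.Countable.mono e
    apply Set.countable_iUnion
    intro n
    exact (g7 _ (isCompact_closedBall _ _)).countable

end TL.H52
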