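import Pool.Agent.Helper22.TL.Spec

/-!
# TL, parts T3 and COV: barycentric representations along chains of faces
-/

set_option autoImplicit false

namespace TL.H52

open Set

variable {d : ℕ}

lemma exists_top (C : Finset (Set (E d))) (hC : C.Nonempty)
    (hch : IsChain (· ⊆ ·) (C : Set (Set (E d)))) : ∃ G ∈ C, ∀ F ∈ C, F ⊆ G := by
  obtain ⟨G, hG, hmax⟩ := C.exists_maximal hC
  refine ⟨G, hG, fun F hF => ?_⟩
  by_cases h : F = G
  · rw [h]
  · rcases hch hF hG h with h1 | h1
    · exact h1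
    · exact hmax hF h1

/-- a weighted sum of centres is in the relative interior of the top -/
lemma ri_sum (h1 : S_RI1) (c : Set (E d) → E d) (C : Finset (Set (E d))) (G : Set (E d))
    (hGC : G ∈ C) (hconv : Convex ℝ G) (hcG : c G ∈ ri G) (hc : ∀ F ∈ C, c F ∈ G)
    (w : Set (E d) → ℝ) (hw : ∀ F ∈ C, 0 ≤ w F) (hwG : 0 < w G) :
    (∑ F ∈ C, w F)⁻¹ • ∑ F ∈ C, w F • c F ∈ ri G := by
  have hs : 0 < ∑ F ∈ C, w F := Finset.sum_pos' hw ⟨G, hGC, hwG⟩
  have hle : w G ≤ ∑ F ∈ C, w F := Finset.single_le_sum hw hGC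
  have hsplit := Finset.add_sum_erase C w hGC
  have hsplit2 := Finset.add_sum_erase C (fun F => w F • c F) hGC
  have h2 := (h1 d).2.1 G (c G)
  rcases hle.lt_or_eq with hlt | heq
  · have hr : 0 < ∑ F ∈ C.erase G, w F := by linarith
    have hb : (∑ F ∈ C.erase G, w F)⁻¹ • ∑ F ∈ C.erase G, w F • c F ∈ G :=
      hconv.centerMass_mem (fun F hF => hw F (Finset.mem_of_mem_erase hF)) hr
        (fun F hF => hc F (Finset.mem_of_mem_erase hF))
    have h3 := h2 _ ((∑ F ∈ C, w F)⁻¹ * w G) hconv hcG hb (by positivity)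
      (by rw [inv_mul_le_iff₀ hs, mul_one]; exact hle)
    have e : (1 - (∑ F ∈ C, w F)⁻¹ * w G) • (∑ F ∈ C.erase G, w F)⁻¹ •
        ∑ F ∈ C.erase G, w F • c F = (∑ F ∈ C, w F)⁻¹ • ∑ F ∈ C.erase G, w F • c F := by
      rw [smul_smul]
      congr 1
      have : ∑ F ∈ C.erase G, w F = ∑ F ∈ C, w F - w G := by linarith
      rw [this]
      have h5 : ∑ F ∈ C, w F - w G ≠ 0 := by linarith
      field_simp
    rw [e, mul_smul, ← smul_add, hsplit2] at h3
    exact h3
  · have hz : ∑ F ∈ C.erase G, w F = 0 := by linarith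
    have hz' : ∀ F ∈ C.erase G, w F = 0 :=
      (Finset.sum_eq_zero_iff_of_nonneg (fun F hF => hw F (Finset.mem_of_mem_erase hF))).1 hz
    have e : ∑ F ∈ C.erase G, w F • c F = 0 := by
      apply Finset.sum_eq_zero
      intro F hF
      rw [hz' F hF, zero_smul]
    rw [← hsplit2, e, add_zero, ← heq, smul_smul, inv_mul_cancel₀ hwG.ne', one_smul]
    exact hcG

lemma t3_aux (h1 : S_RI1) (hG : S_GLOB) {𝒯 : Set (Set (E d))} (hT : LFC 𝒯)
    (c : Set (E d) → E d) (hc : ∀ F, Fc 𝒯 F → c F ∈ ri F) (n : ℕ) :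
    ∀ (C C' : Finset (Set (E d))) (a b : Set (E d) → ℝ), C.card = n →
    (∀ F ∈ C, Fc 𝒯 F) → (∀ F ∈ C', Fc 𝒯 F) → IsChain (· ⊆ ·) (C : Set (Set (E d))) →
    IsChain (· ⊆ ·) (C' : Set (Set (E d))) → (∀ F ∈ C, 0 < a F) → (∀ F ∈ C', 0 < b F) →
    ∑ F ∈ C, a F = ∑ F ∈ C', b F → ∑ F ∈ C, a F • c F = ∑ F ∈ C', b F • c F →
    C = C' ∧ ∀ F ∈ C, a F = b F := by
  obtain ⟨G1, -, -, G4, -, -, -⟩ := hG d 𝒯 hT
  -- comparison of the weights of the top
  have key : ∀ (C C' : Finset (Set (E d))) (a b : Set (E d) → ℝ) (G : Set (E d)), G ∈ C → G ∈ C' →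
      (∀ F ∈ C, F ⊆ G) → (∀ F ∈ C', F ⊆ G) →
      (∀ F ∈ C, Fc 𝒯 F) → (∀ F ∈ C', Fc 𝒯 F) → IsChain (· ⊆ ·) (C : Set (Set (E d))) →
      (∀ F ∈ C, 0 < a F) → (∀ F ∈ C', 0 < b F) →
      ∑ F ∈ C, a F = ∑ F ∈ C', b F → ∑ F ∈ C, a F • c F = ∑ F ∈ C', b F • c F →
      ¬ a G < b G := by
    intro C C' a b G hGC hGC' hCG hC'G hC hC' hch ha hb hsum hcen hlt
    have e1 := Finset.add_sum_erase C a hGC
    have e2 := Finset.add_sum_erase C (fun F => a F • c F) hGC
    have e3 := Finset.add_sum_erase C' b hGC'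
    have e4 := Finset.add_sum_erase C' (fun F => b F • c F) hGC'
    have hne : (C.erase G).Nonempty := by
      by_contra hemp
      rw [Finset.not_nonempty_iff_eq_empty] at hemp
      rw [hemp, Finset.sum_empty] at e1
      have : 0 ≤ ∑ F ∈ C'.erase G, b F :=
        Finset.sum_nonneg fun F hF => (hb F (Finset.mem_of_mem_erase hF)).le
      linarith
    obtain ⟨H, hH, hHtop⟩ := exists_top (C.erase G) hne
      (hch.mono (by exact_mod_cast Finset.erase_subset G C))
    have hHC := Finset.mem_of_mem_erase hH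
    have r1 := ri_sum h1 c (C.erase G) H hH (G4 H (hC H hHC)).2.1 (hc H (hC H hHC))
      (fun F hF => hHtop F hF (hc F (hC F (Finset.mem_of_mem_erase hF))).1) a
      (fun F hF => (ha F (Finset.mem_of_mem_erase hF)).le) (ha H hHC)
    classical
    have r2 := ri_sum h1 c C' G hGC' (G4 G (hC G hGC)).2.1 (hc G (hC G hGC))
      (fun F hF => hC'G F hF (hc F (hC' F hF)).1)
      (fun F => if F = G then b G - a G else b F)
      (by
        intro F hF
        show 0 ≤ if F = G then b G - a G else b F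
        split_ifs
        · linarith
        · exact (hb F hF).le)
      (by
        show 0 < if G = G then b G - a G else b G
        rw [if_pos rfl]; linarith)
    have f1 : ∑ F ∈ C', (if F = G then b G - a G else b F) = ∑ F ∈ C.erase G, a F := by
      rw [← Finset.add_sum_erase C' _ hGC', if_pos rfl]
      have : ∑ F ∈ C'.erase G, (if F = G then b G - a G else b F) = ∑ F ∈ C'.erase G, b F :=
        Finset.sum_congr rfl fun F hF => if_neg (Finset.ne_of_mem_erase hF)
      rw [this]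
      linarith
    have f2 : ∑ F ∈ C', (if F = G then b G - a G else b F) • c F =
        ∑ F ∈ C.erase G, a F • c F := by
      rw [← Finset.add_sum_erase C' _ hGC', if_pos rfl]
      have : ∑ F ∈ C'.erase G, (if F = G then b G - a G else b F) • c F =
          ∑ F ∈ C'.erase G, b F • c F :=
        Finset.sum_congr rfl fun F hF => by rw [if_neg (Finset.ne_of_mem_erase hF)]
      rw [this, sub_smul]
      have h5 : a G • c G + ∑ F ∈ C.erase G, a F • c F =
          b G • c G + ∑ F ∈ C'.erase G, b F • c F := by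
        rw [e2, e4, hcen]
      have h6 : ∑ F ∈ C.erase G, a F • c F =
          b G • c G + ∑ F ∈ C'.erase G, b F • c F - a G • c G := by
        rw [← h5]; abel
      rw [h6]
      abel
    rw [f1, f2] at r2
    have h7 := (G1 G H _ (hC G hGC) (hC H hHC) r2 r1.1).1
    have h8 : H = G := Set.Subset.antisymm (hCG H hHC) h7
    exact Finset.ne_of_mem_erase hH h8
  induction n with
  | zero =>
    intro C C' a b hn hC hC' hch hch' ha hb hsum hcen
    rw [Finset.card_eq_zero] at hn
    subst hn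
    rw [Finset.sum_empty] at hsum
    have : C' = ∅ := by
      by_contra hne
      have hne' := Finset.nonempty_iff_ne_empty.2 hne
      have := Finset.sum_pos hb hne'
      linarith
    rw [this]
    simp
  | succ n ih =>
    intro C C' a b hn hC hC' hch hch' ha hb hsum hcen
    have hCne : C.Nonempty := by rw [← Finset.card_pos]; omega
    have hs : 0 < ∑ F ∈ C, a F := Finset.sum_pos ha hCne
    have hC'ne : C'.Nonempty := by
      by_contra hemp
      rw [Finset.not_nonempty_iff_eq_empty] at hemp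
      rw [hemp, Finset.sum_empty] at hsum
      linarith
    obtain ⟨G, hG, hGtop⟩ := exists_top C hCne hch
    obtain ⟨G', hG', hGtop'⟩ := exists_top C' hC'ne hch'
    have r1 := ri_sum h1 c C G hG (G4 G (hC G hG)).2.1 (hc G (hC G hG))
      (fun F hF => hGtop F hF (hc F (hC F hF)).1) a (fun F hF => (ha F hF).le) (ha G hG)
    have r2 := ri_sum h1 c C' G' hG' (G4 G' (hC' G' hG')).2.1 (hc G' (hC' G' hG'))
      (fun F hF => hGtop' F hF (hc F (hC' F hF)).1) b (fun F hF => (hb F hF).le) (hb G' hG')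
    rw [← hsum, ← hcen] at r2
    have h2 := (G1 G G' _ (hC G hG) (hC' G' hG') r1 r2.1).1
    have h3 := (G1 G' G _ (hC' G' hG') (hC G hG) r2 r1.1).1
    have h4 : G = G' := Set.Subset.antisymm h2 h3
    subst h4
    have h5 := key C C' a b G hG hG' hGtop hGtop' hC hC' hch ha hb hsum hcen
    have h6 := key C' C b a G hG' hG hGtop' hGtop hC' hC hch' hb ha hsum.symm hcen.symm
    have h7 : a G = b G := le_antisymm (not_lt.1 h6) (not_lt.1 h5)
    have e1 := Finset.add_sum_erase C a hG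
    have e2 := Finset.add_sum_erase C (fun F => a F • c F) hG
    have e3 := Finset.add_sum_erase C' b hG'
    have e4 := Finset.add_sum_erase C' (fun F => b F • c F) hG'
    obtain ⟨h8, h9⟩ := ih (C.erase G) (C'.erase G) a b
      (by rw [Finset.card_erase_of_mem hG, hn]; rfl)
      (fun F hF => hC F (Finset.mem_of_mem_erase hF))
      (fun F hF => hC' F (Finset.mem_of_mem_erase hF))
      (hch.mono (by exact_mod_cast Finset.erase_subset G C))
      (hch'.mono (by exact_mod_cast Finset.erase_subset G C'))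
      (fun F hF => ha F (Finset.mem_of_mem_erase hF))
      (fun F hF => hb F (Finset.mem_of_mem_erase hF))
      (by linarith)
      (by
        have : a G • c G + ∑ F ∈ C.erase G, a F • c F =
            a G • c G + ∑ F ∈ C'.erase G, b F • c F := by
          rw [e2, hcen, ← e4, h7]
        exact add_left_cancel this)
    constructor
    · rw [← Finset.insert_erase hG, h8, Finset.insert_erase hG']
    · intro F hF
      by_cases hFG : F = G
      · rw [hFG, h7]
      · exact h9 F (Finset.mem_erase.2 ⟨hFG, hF⟩)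

theorem _root_.TL.T3_thm (h1 : S_RI1) (hG : S_GLOB) : S_T3 := by
  intro d 𝒯 hT c hc C C' a b hC hC' hch hch' ha hb hsa hsb hcen
  exact t3_aux h1 hG hT c hc C.card C C' a b rfl hC hC' hch hch' ha hb (hsa.trans hsb.symm) hcen

/-! ## COV -/

/-- the last point of a ray in a compact set -/
lemma exists_last (G : Set (E d)) (hG : IsCompact G) (c x : E d) (hx : x ∈ G) (hcx : x ≠ c) :
    ∃ t : ℝ, 1 ≤ t ∧ c + t • (x - c) ∈ G ∧ ∀ s : ℝ, t < s → c + s • (x - c) ∉ G := by
  obtain ⟨R, hR⟩ := hG.isBounded.exists_norm_le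
  have hpos : 0 < ‖x - c‖ := norm_pos_iff.2 (sub_ne_zero.2 hcx)
  have hcl : IsClosed {t : ℝ | c + t • (x - c) ∈ G} :=
    hG.isClosed.preimage (by fun_prop)
  have hcomp : IsCompact (Icc 1 ((R + ‖c‖) / ‖x - c‖) ∩ {t : ℝ | c + t • (x - c) ∈ G}) :=
    isCompact_Icc.inter_right hcl
  have hbd : ∀ t : ℝ, 1 ≤ t → c + t • (x - c) ∈ G → t ≤ (R + ‖c‖) / ‖x - c‖ := by
    intro t ht h
    rw [le_div_iff₀ hpos]
    have h2 : ‖t • (x - c)‖ ≤ R + ‖c‖ := by
      have h3 : t • (x - c) = (c + t • (x - c)) - c := by abel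
      rw [h3]
      exact (norm_sub_le _ _).trans (by linarith [hR _ h])
    rw [norm_smul, Real.norm_eq_abs, abs_of_nonneg (by linarith)] at h2
    exact h2
  have h1 : c + (1 : ℝ) • (x - c) ∈ G := by rw [one_smul]; simpa using hx
  obtain ⟨t, ht, hmax⟩ := hcomp.exists_isGreatest ⟨1, ⟨le_rfl, hbd 1 le_rfl h1⟩, h1⟩
  refine ⟨t, ht.1.1, ht.2, fun s hs h => ?_⟩
  have h3 : s ∈ Icc 1 ((R + ‖c‖) / ‖x - c‖) ∩ {t : ℝ | c + t • (x - c) ∈ G} := by
    have : 1 ≤ s := ht.1.1.trans hs.le
    exact ⟨⟨this, hbd s this h⟩, h⟩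
  exact absurd (hmax h3) (not_le.2 hs)

lemma cov_aux (hG : S_GLOB) {𝒯 : Set (Set (E d))} (hT : LFC 𝒯)
    (c : Set (E d) → E d) (hc : ∀ F, Fc 𝒯 F → c F ∈ ri F) (n : ℕ) :
    ∀ (G : Set (E d)) (x : E d), Fc 𝒯 G → {F | Fc 𝒯 F ∧ F ⊆ G}.ncard = n → x ∈ ri G →
    ∃ (C : Finset (Set (E d))) (a : Set (E d) → ℝ),
      (∀ F ∈ C, Fc 𝒯 F) ∧ IsChain (· ⊆ ·) (C : Set (Set (E d))) ∧ (∀ F ∈ C, 0 < a F) ∧
      ∑ F ∈ C, a F = 1 ∧ ∑ F ∈ C, a F • c F = x ∧ ∀ F ∈ C, F ⊆ G := by
  classical
  obtain ⟨G1, -, -, G4, G5, -, G7⟩ := hG d 𝒯 hT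
  induction n using Nat.strong_induction_on with
  | _ n ih =>
    intro G x hGf hn hx
    by_cases hxc : x = c G
    · refine ⟨{G}, fun _ => 1, ?_, ?_, ?_, ?_, ?_, ?_⟩
      · intro F hF; rw [Finset.mem_singleton.1 hF]; exact hGf
      · simp
      · intro F _; norm_num
      · simp
      · simp [hxc]
      · intro F hF; rw [Finset.mem_singleton.1 hF]
    · obtain ⟨t, ht1, htG, htmax⟩ := exists_last G (G4 G hGf).1 (c G) x hx.1 hxc
      set y := c G + t • (x - c G) with hy
      have hyri : y ∉ ri G := by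
        intro h
        obtain ⟨ε, hε, h2⟩ := h.2 (c G) (hc G hGf).1
        apply htmax (t + ε * t) (by nlinarith)
        have : c G + (t + ε * t) • (x - c G) = y + ε • (y - c G) := by
          rw [hy, add_smul, add_sub_cancel_left, smul_smul, add_assoc]
        rw [this]
        exact h2
      have ht : 1 < t := by
        rcases ht1.lt_or_eq with h | h
        · exact h
        · exfalso
          apply hyri
          rw [hy, ← h, one_smul, add_sub_cancel]
          exact hx
      obtain ⟨F, hF, hyF⟩ := G5 y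
      have hFG : F ⊆ G := (G1 F G y hF hGf hyF htG).1
      have hFne : F ≠ G := by rintro rfl; exact hyri hyF
      have hfin : {F | Fc 𝒯 F ∧ F ⊆ G}.Finite := by
        apply (G7 G (G4 G hGf).1).subset
        rintro F ⟨h1, h2⟩
        exact ⟨h1, by rw [inter_eq_left.2 h2]; exact h1.1⟩
      have hlt : {F' | Fc 𝒯 F' ∧ F' ⊆ F}.ncard < n := by
        rw [← hn]
        apply Set.ncard_lt_ncard _ hfin
        refine ⟨fun F' h => ⟨h.1, h.2.trans hFG⟩, fun h => ?_⟩
        have : G ∈ {F' | Fc 𝒯 F' ∧ F' ⊆ F} := h ⟨hGf, subset_rfl⟩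
        exact hFne (Set.Subset.antisymm hFG this.2)
      obtain ⟨C, a, hC1, hC2, hC3, hC4, hC5, hC6⟩ := ih _ hlt F y hF rfl hyF
      have hGC : G ∉ C := fun h => hFne (Set.Subset.antisymm hFG (hC6 G h))
      have htpos : 0 < t := by linarith
      refine ⟨insert G C, fun H => if H = G then 1 - t⁻¹ else t⁻¹ * a H, ?_, ?_, ?_, ?_, ?_, ?_⟩
      · intro H hH
        rcases Finset.mem_insert.1 hH with h | h
        · rw [h]; exact hGf
        · exact hC1 H h
      · rw [Finset.coe_insert]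
        apply hC2.insert
        intro H hH _
        exact Or.inr ((hC6 H hH).trans hFG)
      · intro H hH
        show 0 < if H = G then 1 - t⁻¹ else t⁻¹ * a H
        split_ifs with h
        · have : t⁻¹ < 1 := inv_lt_one_of_one_lt₀ ht
          linarith
        · rcases Finset.mem_insert.1 hH with h' | h'
          · exact absurd h' h
          · exact mul_pos (inv_pos.2 htpos) (hC3 H h')
      · rw [Finset.sum_insert hGC, if_pos rfl]
        have : ∑ H ∈ C, (if H = G then 1 - t⁻¹ else t⁻¹ * a H) = ∑ H ∈ C, t⁻¹ * a H :=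
          Finset.sum_congr rfl fun H hH => if_neg (by rintro rfl; exact hGC hH)
        rw [this, ← Finset.mul_sum, hC4]
        ring
      · rw [Finset.sum_insert hGC]
        beta_reduce
        rw [if_pos rfl]
        have : ∑ H ∈ C, (if H = G then 1 - t⁻¹ else t⁻¹ * a H) • c H =
            ∑ H ∈ C, t⁻¹ • a H • c H :=
          Finset.sum_congr rfl fun H hH => by
            rw [if_neg (by rintro rfl; exact hGC hH), mul_smul]
        rw [this, ← Finset.smul_sum, hC5, hy, smul_add, smul_smul, inv_mul_cancel₀ htpos.ne',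
          one_smul, sub_smul, one_smul]
        abel
      · intro H hH
        rcases Finset.mem_insert.1 hH with h | h
        · rw [h]
        · exact (hC6 H h).trans hFG

theorem _root_.TL.COV_thm (hG : S_GLOB) : S_COV := by
  intro d 𝒯 hT c hc x
  obtain ⟨G, hGf, hx⟩ := (hG d 𝒯 hT).2.2.2.2.1 x
  obtain ⟨C, a, h1, h2, h3, h4, h5, _⟩ := cov_aux hG hT c hc _ G x hGf rfl hx
  exact ⟨C, a, h1, h2, h3, h4, h5⟩

end TL.H52
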